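import Pool.Agent.helper38.TA.SpecE
import Pool.Agent.helper38.BA.FIN

/-!
# Project TA, row FRT: the t-aspect, real coefficients
-/

set_option autoImplicit false

open Complex MeasureTheory Set
open scoped ComplexConjugate

namespace Pool.Agent.TA

open Pool.Agent.BA (Par GG kl kf vf fV Bw Den PP wt lam gpf rgz)
open Pool.Agent.ZT (fP Bn NN Cen GF hm Sqf cmf lamA muA prm Eta NwD Cof thC LaC LfC FEQ Prs)

/-- the exponent is at least 3 -/
theorem FRT_exp (n k : ℕ) (hn : 13 ≤ n) (hk : 1 ≤ k) : (3 : ℝ) ≤ (n : ℝ) / 4 - n / (200 * k) := by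
  have h1 : (13 : ℝ) ≤ n := by exact_mod_cast hn
  have h2 : (1 : ℝ) ≤ k := by exact_mod_cast hk
  have h3 : (n : ℝ) / (200 * k) ≤ n / 200 := by
    apply div_le_div_of_nonneg_left (by linarith) (by norm_num)
    linarith
  linarith

theorem FRT_w3 (n : ℕ) (hn : 13 ≤ n) (t w : ℕ → ℝ) (ht : ∀ k, 0 ≤ t k) (ht0 : t 0 = 0) (hw0 : w 0 = 1)
    (hw : ∀ k : ℕ, 1 ≤ k → w k = (1 + t k) ^ ((n : ℝ) / 4 - n / (200 * k))) (k : ℕ) : (1 + t k) ^ 3 ≤ w k := by
  rcases Nat.eq_zero_or_pos k with rfl | hk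
  · rw [ht0, hw0]; norm_num
  · rw [hw k hk, ← Real.rpow_natCast]
    apply Real.rpow_le_rpow_of_exponent_le
    · linarith [ht k]
    · have := FRT_exp n k hn hk
      push_cast
      exact this

/-- the target functional -/
noncomputable def FRT_Th {n : ℕ} (μ : Fin n → ℝ) (t w : ℕ → ℝ) : VR →ₗ[ℝ] ℝ where
  toFun v := ps μ t w v.2
  map_add' v v' := by
    unfold ps
    rw [Prod.snd_add]
    apply Finsupp.sum_add_index'
    · intro a; simp
    · intro a b c; ring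
  map_smul' r v := by
    unfold ps
    rw [Prod.smul_snd, Finsupp.sum_smul_index']
    · rw [RingHom.id_apply, smul_eq_mul, Finsupp.mul_sum]
      apply Finsupp.sum_congr
      intro a _
      rw [smul_eq_mul]; ring
    · intro i; simp

theorem FRT_Th_le {n : ℕ} (μ : Fin n → ℝ) (t w : ℕ → ℝ) (hw : ∀ k, 0 ≤ w k) (v : VR) :
    |FRT_Th μ t w v| ≤ sg μ t w v.2 := by
  change |ps μ t w v.2| ≤ sg μ t w v.2
  unfold ps sg Finsupp.sum
  refine (Finset.abs_sum_le_sum_abs _ _).trans (le_of_eq ?_)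
  apply Finset.sum_congr rfl
  intro k _
  have h1 : 0 ≤ gh μ (t k) := norm_nonneg _
  rw [abs_mul, abs_mul, abs_of_nonneg (hw k), abs_of_nonneg h1]

theorem FRT_gh {n : ℕ} (μ : Fin n → ℝ) (hμ : ∀ i, 0 ≤ μ i) (t : ℝ) : 0 < gh μ t := by
  unfold gh
  rw [norm_pos_iff]
  unfold GG
  rw [Finset.prod_ne_zero_iff]
  intro i _
  apply Gammaℝ_ne_zero_of_re_pos
  have : ((1 / 2 : ℂ) + (t : ℂ) * I + (μ i : ℂ)).re = 1 / 2 + μ i := by
    simp
  rw [this]
  have := hμ i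
  linarith

theorem FRT_fU {n : ℕ} (μ : Fin n → ℝ) (t : ℕ → ℝ) (u x : ℝ) :
    gR μ t 0 (Finsupp.single u 1, 0) x = Pool.Agent.FL.FU (kf μ 0) u x := by
  unfold gR fV Pool.Agent.FL.FU
  rw [Finsupp.sum_single_index (by simp), Finsupp.sum_zero_index]
  rw [mul_comm x (Real.exp u), mul_comm x (Real.exp (-u))]
  ring

theorem FRT_vC {n : ℕ} (μ : Fin n → ℝ) (t : ℕ → ℝ) (k : ℕ) (x : ℝ) :
    gR μ t 0 (0, Finsupp.single k 1) x = (vC μ 0 (t k) x).re := by
  unfold gR fV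
  simp only [Finsupp.sum_zero_index]
  rw [Finsupp.sum_single_index (by simp)]
  ring

theorem FRT (hSEQ : SEQ_stmt) (hGVR : GVR_stmt) (hFPR : FPR_stmt) (hRZV : RZV_stmt)
    (bSE : Pool.Agent.BA.SE_stmt) (bPS : Pool.Agent.BA.PS_stmt) (bLM : Pool.Agent.BA.LM_stmt)
    (bKER : Pool.Agent.BA.KER_stmt) (fZFI : Pool.Agent.FL.ZFI_stmt) : FRT_stmt := by
  intro n μ hμ
  have hμ1 : Par 1 μ := ⟨le_trans (by norm_num) hμ.1, hμ.2⟩
  obtain ⟨t, w, htk, htm, hw0, hw, hD⟩ := hSEQ Unit n (fun _ => μ) (fun _ => hμ1)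
  obtain ⟨D₀, hSps⟩ := hD ()
  have ht0 := hSps.t0
  refine ⟨t, ht0, htm, htk, ?_⟩
  intro K hK
  have hw3 := FRT_w3 n hμ.1 t w hSps.tn ht0 hw0 hw
  have hwn : ∀ k, 0 ≤ w k := fun k => le_trans zero_le_one (hSps.w1 k)
  obtain ⟨C₁, hTSR, hsg⟩ := hGVR n μ t w D₀ hμ hSps hw3
  have hTh : ∀ (L : ℝ) (v : VR), 1 ≤ L → |FRT_Th μ t w v| ≤ C₁ * MY L (gR μ t 0 v) :=
    fun L v hL => (FRT_Th_le μ t w hwn v).trans (hsg L v hL)
  obtain ⟨κ, N₀, S, hDen⟩ := bSE
  obtain ⟨x₀, hx0, hx1, c₂, cT, hc2, hcT, hF⟩ := hFPR VR (gR μ t) C₁ κ N₀ S (FRT_Th μ t w) hTSR hTh hDen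
  obtain ⟨C, hC, q₁, hq1, hP⟩ := bPS κ N₀ S x₀ hDen hx0 hx1
  -- the constant
  set c : ℝ := min c₂ (min (1 / C) (K / (2 * (C + K)))) with hc
  have hc0 : 0 < c := by
    simp only [hc]
    refine lt_min hc2 (lt_min (by positivity) (by positivity))
  have hcc2 : c ≤ c₂ := min_le_left _ _
  have hcC : c * C ≤ 1 := by
    have : c ≤ 1 / C := (min_le_right _ _).trans (min_le_left _ _)
    calc c * C ≤ 1 / C * C := mul_le_mul_of_nonneg_right this hC.le
      _ = 1 := by field_simp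
  have hcK : c ≤ K / (2 * (C + K)) := (min_le_right _ _).trans (min_le_right _ _)
  have hcK2 : 2 * (c ^ 2 * C) ≤ K := by
    have h1 : c ≤ 1 := by
      refine hcK.trans ?_
      rw [div_le_one (by positivity)]
      linarith
    have h2 : c * C ≤ K / 2 := by
      calc c * C ≤ K / (2 * (C + K)) * C := mul_le_mul_of_nonneg_right hcK hC.le
        _ = K / 2 * (C / (C + K)) := by field_simp
        _ ≤ K / 2 * 1 := by
            refine mul_le_mul_of_nonneg_left ?_ (by positivity)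
            rw [div_le_one (by positivity)]
            linarith
        _ = K / 2 := mul_one _
    have h3 : c ^ 2 * C ≤ K / 2 := by
      calc c ^ 2 * C = c * (c * C) := by ring
        _ ≤ 1 * (K / 2) := mul_le_mul h1 h2 (by positivity) zero_le_one
        _ = K / 2 := one_mul _
    linarith
  obtain ⟨q₂, hq2, hB⟩ := hF c hc0 hcc2
  refine ⟨2 * (cT * c), by positivity, ⌈max q₁ q₂⌉₊ + 3, ?_⟩
  intro q hq
  have hqr : max q₁ q₂ ≤ (q : ℝ) := by
    have h1 : (⌈max q₁ q₂⌉₊ : ℝ) ≤ q := by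
      exact_mod_cast le_trans (Nat.le_add_right _ 3) hq
    exact (Nat.le_ceil _).trans h1
  have hq3 : 3 ≤ q := le_trans (Nat.le_add_left 3 _) hq
  have hqpos : (0 : ℝ) < q := by
    have : 0 < q := by omega
    exact_mod_cast this
  have hL : 0 < Real.log q := by
    apply Real.log_pos
    have : 1 < q := by omega
    exact_mod_cast this
  obtain ⟨b, hb, hsum⟩ := hB q ((le_max_right _ _).trans hqr)
  obtain ⟨hwp, -, -, hs2, hs3⟩ := hP q ((le_max_left _ _).trans hqr)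
  have hcL : 0 < c / Real.log q := div_pos hc0 hL
  have hb1 : ∀ p, |b p| ≤ 1 := by
    intro p
    refine (hb p).trans ?_
    calc c / Real.log q * wt S x₀ q p ≤ c / Real.log q * (C * Real.log q) :=
          mul_le_mul_of_nonneg_left (hwp p).2.1 hcL.le
      _ = c * C := by field_simp
      _ ≤ 1 := hcC
  have hco := Pool.Agent.BA.FIN_coef bLM b hb1
  -- functional equation
  have hfe : Pool.Agent.FL.FE (kf μ 0) (lam b) q := by
    intro u
    have h := (hsum (Finsupp.single u 1, 0)).2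
    have h0 : FRT_Th μ t w (Finsupp.single u 1, 0) = 0 := by
      change ps μ t w 0 = 0
      unfold ps
      exact Finsupp.sum_zero_index
    rw [h0, zero_mul] at h
    rw [← h]
    refine tsum_congr fun m => ?_
    rw [FRT_fU]
  -- Rankin-Selberg sum
  have hbb : ∀ p : ℕ, Real.log p * b p ^ 2 / p ≤
      (c / Real.log q) ^ 2 * (Real.log p * wt S x₀ q p ^ 2 / p) := by
    intro p
    have h1 : b p ^ 2 ≤ (c / Real.log q * wt S x₀ q p) ^ 2 := by
      rw [← sq_abs]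
      exact pow_le_pow_left₀ (abs_nonneg _) (hb p) 2
    have h2 : 0 ≤ Real.log (p : ℝ) := Real.log_natCast_nonneg p
    have h3 : (0 : ℝ) ≤ p := Nat.cast_nonneg p
    calc Real.log p * b p ^ 2 / p ≤ Real.log p * (c / Real.log q * wt S x₀ q p) ^ 2 / p :=
          div_le_div_of_nonneg_right (mul_le_mul_of_nonneg_left h1 h2) h3
      _ = (c / Real.log q) ^ 2 * (Real.log p * wt S x₀ q p ^ 2 / p) := by ring
  have hbs : Summable (fun p : ℕ => Real.log p * b p ^ 2 / p) := by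
    refine Summable.of_nonneg_of_le (fun p => ?_) hbb (hs2.mul_left _)
    exact div_nonneg (mul_nonneg (Real.log_natCast_nonneg p) (sq_nonneg _)) (Nat.cast_nonneg p)
  have hbt : ∑' p : ℕ, Real.log p * b p ^ 2 / p ≤ c ^ 2 * C * Real.log q := by
    calc ∑' p : ℕ, Real.log p * b p ^ 2 / p ≤
          ∑' p : ℕ, (c / Real.log q) ^ 2 * (Real.log p * wt S x₀ q p ^ 2 / p) :=
          hbs.tsum_le_tsum hbb (hs2.mul_left _)
      _ = (c / Real.log q) ^ 2 * ∑' p : ℕ, Real.log p * wt S x₀ q p ^ 2 / p := tsum_mul_left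
      _ ≤ (c / Real.log q) ^ 2 * (C * Real.log q ^ 3) := mul_le_mul_of_nonneg_left hs3 (by positivity)
      _ = c ^ 2 * C * Real.log q := by field_simp
  obtain ⟨hr1, hr2⟩ := Pool.Agent.BA.RB bLM b _ hb1 hbs hbt
  have hr3 : ∑' m : ℕ, ArithmeticFunction.vonMangoldt m * lam b m ^ 2 * (m : ℝ) ^ (-1 : ℝ) ≤
      K * (1 + Real.log q) := by
    refine hr2.trans ?_
    have : 2 * (c ^ 2 * C * Real.log q) ≤ K * Real.log q := by
      calc 2 * (c ^ 2 * C * Real.log q) = 2 * (c ^ 2 * C) * Real.log q := by ring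
        _ ≤ K * Real.log q := mul_le_mul_of_nonneg_right hcK2 hL.le
    nlinarith
  obtain ⟨D, hD, hDq, hDμ, hDa, hDL, hDfe, -⟩ := fZFI n μ (kf μ 0) (lam b) q K hμ1.1 hK (bKER n μ hμ1) hco
    (by omega) hfe hr1 hr3
  refine ⟨D, hD, hDq, hDμ, ⟨b, hb1, fun p k hp => ?_⟩, hDfe, ?_⟩
  · rw [hDa, Pool.Agent.BA.RB_pow bLM b hp k]
  · intro k
    have hg := FRT_gh μ hμ1.2 (t k)
    have h1 := hRZV n μ b q D.L hμ1 (bKER n μ hμ1) hco (by omega) hfe hD.entire hDL (t k)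
    have h2 := (hsum (0, Finsupp.single k 1)).2
    have h3 : FRT_Th μ t w (0, Finsupp.single k 1) = w k * gh μ (t k) := by
      change ps μ t w (Finsupp.single k 1) = _
      unfold ps
      rw [Finsupp.sum_single_index (by simp)]
      ring
    simp only [FRT_vC] at h2
    rw [h3] at h2
    rw [h2] at h1
    have hwk : 0 ≤ w k := hwn k
    have h4 : w k * gh μ (t k) * (cT * (c / Real.log q) * √(q : ℝ)) =
        gh μ (t k) * (w k * (cT * (c / Real.log q) * √(q : ℝ))) := by ring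
    have h5 : 0 ≤ w k * (cT * (c / Real.log q) * √(q : ℝ)) := by positivity
    rw [h4, abs_mul, abs_of_pos hg, abs_of_nonneg h5] at h1
    have h6 : ‖D.L ((1 / 2 : ℂ) + t k * I)‖ =
        2 * (q : ℝ) ^ (-(1 / 4) : ℝ) * (w k * (cT * (c / Real.log q) * √(q : ℝ))) := by
      apply mul_right_cancel₀ hg.ne'
      rw [h1]
      ring
    rw [h6]
    have h7 : √(q : ℝ) = (q : ℝ) ^ (1 / 2 : ℝ) := Real.sqrt_eq_rpow _
    have h8 : (q : ℝ) ^ (-(1 / 4) : ℝ) * (q : ℝ) ^ (1 / 2 : ℝ) = (q : ℝ) ^ (1 / 4 : ℝ) := by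
      rw [← Real.rpow_add hqpos]
      norm_num
    have h9 : w k = (1 + t k) ^ ((n : ℝ) / 4 - n / (200 * k)) := by
      rcases Nat.eq_zero_or_pos k with rfl | hk
      · rw [ht0, hw0, add_zero, Real.one_rpow]
      · exact hw k hk
    rw [h7, ← h9]
    calc 2 * (q : ℝ) ^ (-(1 / 4) : ℝ) * (w k * (cT * (c / Real.log q) * (q : ℝ) ^ (1 / 2 : ℝ))) =
        2 * (cT * c) * ((q : ℝ) ^ (-(1 / 4) : ℝ) * (q : ℝ) ^ (1 / 2 : ℝ)) / Real.log q * w k := by ring
      _ = 2 * (cT * c) * (q : ℝ) ^ (1 / 4 : ℝ) / Real.log q * w k := by rw [h8]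

end Pool.Agent.TA
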